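import Pool.Agent.Y716.C.Smooth

/-!
# Weak approximation for 100% of the cubic surfaces over the rational numbers

Among the smooth cubic surfaces `f = 0` in `ℙ³`, with integral cubic forms `f` with coefficients
bounded by `H`, which have points over the real numbers and over all the `p`-adic fields, a
proportion tending to `1` as `H → ∞` satisfies weak approximation to precision `1 / m(H)` at the
real place and at all the primes up to `m(H)`, where `m(H) → ∞`. In particular 100% of them have a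
rational point.
-/

set_option autoImplicit false

namespace Pool.Agent.Results.MP_a21a76_nt.RandomCubicSurfaces

/-- The cubic forms in four variables whose coefficients are integers of absolute value at
most `H`. -/
def Forms (H : ℕ) : Set (MvPolynomial (Fin 4) ℤ) :=
  {f | f.IsHomogeneous 3 ∧ ∀ m, |f.coeff m| ≤ (H : ℤ)}

/-- The surface `f = 0` in `ℙ³` is smooth: there is no point over a field of characteristic zero at
which `f` and all its partial derivatives vanish. -/
def Smooth (f : MvPolynomial (Fin 4) ℤ) : Prop :=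
  ∀ (K : Type) [Field K] [CharZero K] (x : Fin 4 → K), x ≠ 0 → MvPolynomial.aeval x f = 0 →
    ∃ i, MvPolynomial.aeval x (MvPolynomial.pderiv i f) ≠ 0

/-- The surface `f = 0` in `ℙ³` has points over the real numbers and over all the `p`-adic
fields. -/
def LocallySoluble (f : MvPolynomial (Fin 4) ℤ) : Prop :=
  (∃ x : Fin 4 → ℝ, x ≠ 0 ∧ MvPolynomial.aeval x f = 0) ∧
    ∀ (p : ℕ) [Fact p.Prime], ∃ x : Fin 4 → ℚ_[p], x ≠ 0 ∧ MvPolynomial.aeval x f = 0

/-- Weak approximation for the surface `f = 0` in `ℙ³`, to precision `1 / m` at the real place and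
at the primes up to `m`: for all real points `y` and `p`-adic points `z p` of the surface, one for
each prime `p`, there is a rational point `x` of the surface such that, for suitable
representatives of the point `x` of the projective space, the coordinates of `y - x` are at most
`‖y‖ / m` and the coordinates of `z p - x` are at most `‖z p‖ / m` for all the primes `p ≤ m`
(`‖y‖` and `‖z p‖` being the largest absolute value of a coordinate). -/
def WeakApproximation (m : ℕ) (f : MvPolynomial (Fin 4) ℤ) : Prop :=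
  ∀ (z : ∀ (p : ℕ) [Fact p.Prime], Fin 4 → ℚ_[p]) (y : Fin 4 → ℝ),
    (∀ (p : ℕ) [Fact p.Prime], z p ≠ 0 ∧ MvPolynomial.aeval (z p) f = 0) → y ≠ 0 →
    MvPolynomial.aeval y f = 0 →
    ∃ x : Fin 4 → ℚ, x ≠ 0 ∧ MvPolynomial.aeval x f = 0 ∧
      (∀ (p : ℕ) [Fact p.Prime], p ≤ m → ∃ c : ℚ_[p], c ≠ 0 ∧
        ∀ i, ‖z p i - c * (x i : ℚ_[p])‖ ≤ ‖z p‖ / m) ∧
      ∃ c : ℝ, c ≠ 0 ∧ ∀ i, |y i - c * (x i : ℝ)| ≤ ‖y‖ / m


theorem ncard_one (P : MvPolynomial (Fin 4) ℤ → Prop)
    (Q : (Fin 1 → MvPolynomial (Fin 4) ℤ) → Prop) (h : ∀ f, Q (fun _ => f) ↔ P f) (H : ℕ) :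
    ({f | f ∈ Forms H ∧ P f} : Set _).ncard =
    ({f : Fin 1 → MvPolynomial (Fin 4) ℤ | (∀ j, (f j).IsHomogeneous 3 ∧
      ∀ m, |(f j).coeff m| ≤ (H : ℤ)) ∧ Q f} : Set _).ncard := by
  have h1 : ({f : Fin 1 → MvPolynomial (Fin 4) ℤ | (∀ j, (f j).IsHomogeneous 3 ∧
      ∀ m, |(f j).coeff m| ≤ (H : ℤ)) ∧ Q f} : Set _) =
      (fun (f : MvPolynomial (Fin 4) ℤ) (_ : Fin 1) => f) '' {f | f ∈ Forms H ∧ P f} := by
    ext g
    constructor
    · intro hg
      refine ⟨g 0, ⟨hg.1 0, (h (g 0)).mp ?_⟩, ?_⟩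
      · have : (fun _ : Fin 1 => g 0) = g := funext fun j => by rw [Subsingleton.elim j 0]
        rw [this]; exact hg.2
      · exact funext fun j => by rw [Subsingleton.elim j 0]
    · rintro ⟨f, hf, rfl⟩
      exact ⟨fun _ => hf.1, (h f).mpr hf.2⟩
  rw [h1, Set.ncard_image_of_injective]
  intro f g hfg
  exact congrFun hfg 0

/-- There is a function `m` tending to infinity such that 100% of the everywhere locally soluble
smooth cubic surfaces of height at most `H` satisfy weak approximation to precision `1 / m(H)` at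
the real place and at the primes up to `m(H)`. -/
theorem result :
    ∃ m : ℕ → ℕ, Filter.Tendsto m Filter.atTop Filter.atTop ∧
      Filter.Tendsto (fun H : ℕ =>
        (({f | f ∈ Forms H ∧ Smooth f ∧ LocallySoluble f ∧ WeakApproximation (m H) f} :
          Set _).ncard : ℝ) /
        (({f | f ∈ Forms H ∧ Smooth f ∧ LocallySoluble f} : Set _).ncard : ℝ))
      Filter.atTop (nhds 1) := by
  obtain ⟨m, hm, h⟩ := Pool.Agent.Y716.C.wa_smooth (Fin 4) (s := 1) le_rfl
    (by rw [Fintype.card_fin]) (fun _ => 1) (by rw [Fintype.card_fin]; simp)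
  refine ⟨m, hm, ?_⟩
  have hS : ∀ f : MvPolynomial (Fin 4) ℤ,
      Pool.Agent.Y697.C13.SmoothS (fun _ : Fin 1 => f) ↔ Smooth f := by
    intro f
    constructor
    · intro hf K _ _ x hx h0
      obtain ⟨i, hi⟩ := hf K x (fun _ => 1) hx (fun h => one_ne_zero (congrFun h 0)) (fun _ => h0)
      exact ⟨i, fun h1 => hi (by simp [h1])⟩
    · intro hf K _ _ x l hx hl h0
      obtain ⟨i, hi⟩ := hf K x hx (h0 0)
      have hl0 : l 0 ≠ 0 := fun h1 => hl (funext fun j => by rw [Subsingleton.elim j 0, h1]; rfl)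
      exact ⟨i, by simpa using ⟨hl0, hi⟩⟩
  have hE : ∀ f : MvPolynomial (Fin 4) ℤ,
      Pool.Agent.Y716.C.ElsS (fun _ : Fin 1 => f) ↔ LocallySoluble f := by
    intro f
    unfold Pool.Agent.Y716.C.ElsS LocallySoluble
    simp only [forall_const]
  have hW : ∀ (m : ℕ) (f : MvPolynomial (Fin 4) ℤ),
      Pool.Agent.Y716.C.WeakApproxS m (fun _ : Fin 1 => f) ↔ WeakApproximation m f := by
    intro m f
    unfold Pool.Agent.Y716.C.WeakApproxS WeakApproximation
    simp only [forall_const]
  refine h.congr (fun H => ?_)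
  rw [ncard_one (fun f => Smooth f ∧ LocallySoluble f ∧ WeakApproximation (m H) f)
    (fun f => Pool.Agent.Y697.C13.SmoothS f ∧ Pool.Agent.Y716.C.ElsS f ∧
      Pool.Agent.Y716.C.WeakApproxS (m H) f) (fun f => by rw [hS, hE, hW]) H,
    ncard_one (fun f => Smooth f ∧ LocallySoluble f)
    (fun f => Pool.Agent.Y697.C13.SmoothS f ∧ Pool.Agent.Y716.C.ElsS f)
    (fun f => by rw [hS, hE]) H]

end Pool.Agent.Results.MP_a21a76_nt.RandomCubicSurfaces
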